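import Mathlib

/-! Two small verified checkers.

* `check`: a colouring `c` and a pointer map `p` are given; a demand says that, when a condition on
  the colours holds, some listed vertex points into a listed set.  `check vs ds g` verifies by
  exhaustive search over the colours of `vs` that the demands `ds` force the demand `g`.
* `drawCheck`: integer coordinates give a straight line drawing without crossings. -/

namespace Pool.Agent.P.MP_7589f8_co

structure Dem where
  cond : List (ℕ × ℕ × Bool)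
  opts : List (ℕ × List ℕ)

def Dem.active (d : Dem) (c : ℕ → Bool) : Bool :=
  d.cond.all fun t => (c t.1 == c t.2.1) == t.2.2

def Dem.Holds (d : Dem) (c : ℕ → Bool) (p : ℕ → ℕ) : Prop :=
  d.active c = true → ∃ o ∈ d.opts, p o.1 ∈ o.2

def Dem.supp (d : Dem) (vs : List ℕ) : Bool :=
  d.cond.all fun t => vs.contains t.1 && vs.contains t.2.1

def edgeDem (e : ℕ × ℕ) : Dem := ⟨[(e.1, e.2, true)], [(e.1, [e.2]), (e.2, [e.1])]⟩

def gadDem (x y z : ℕ) (I : List ℕ) : Dem :=
  ⟨[(x, y, true), (x, z, false)], [(x, I), (y, I), (z, I)]⟩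

def compat (st : List (ℕ × List ℕ)) (o : ℕ × List ℕ) : Bool :=
  st.all fun s => s.1 != o.1 || s.2.any fun t => o.2.contains t

def solve : List (List (ℕ × List ℕ)) → List (ℕ × List ℕ) → Bool
  | [], _ => true
  | d :: ds, st => d.any fun o => compat st o && solve ds (o :: st)

theorem solve_sound (p : ℕ → ℕ) : ∀ (ds : List (List (ℕ × List ℕ))) (st : List (ℕ × List ℕ)),
    (∀ d ∈ ds, ∃ o ∈ d, p o.1 ∈ o.2) → (∀ s ∈ st, p s.1 ∈ s.2) → solve ds st = true
  | [], _, _, _ => rfl
  | d :: ds, st, h, hst => by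
    obtain ⟨o, ho, hp⟩ := h d (by simp)
    simp only [solve, List.any_eq_true, Bool.and_eq_true]
    refine ⟨o, ho, ?_, ?_⟩
    · simp only [compat, List.all_eq_true, Bool.or_eq_true, bne_iff_ne, ne_eq, List.any_eq_true,
        List.contains_iff_mem]
      intro s hs
      by_cases e : s.1 = o.1
      · exact Or.inr ⟨p s.1, hst s hs, e ▸ hp⟩
      · exact Or.inl e
    · refine solve_sound p ds (o :: st) (fun d hd => h d (by simp [hd])) ?_
      intro s hs
      rcases List.mem_cons.1 hs with rfl | hs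
      · exact hp
      · exact hst s hs

def enumCol : List ℕ → (ℕ → Bool) → ((ℕ → Bool) → Bool) → Bool
  | [], c, k => k c
  | v :: vs, c, k =>
    enumCol vs (fun a => if a == v then true else c a) k &&
      enumCol vs (fun a => if a == v then false else c a) k

theorem enumCol_sound (c₀ : ℕ → Bool) (k : (ℕ → Bool) → Bool) :
    ∀ (vs : List ℕ) (c : ℕ → Bool), enumCol vs c k = true →
      ∃ c' : ℕ → Bool, k c' = true ∧ ∀ a, (a ∈ vs ∨ c a = c₀ a) → c' a = c₀ a
  | [], c, h => ⟨c, h, fun a ha => by simpa using ha⟩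
  | v :: vs, c, h => by
    simp only [enumCol, Bool.and_eq_true] at h
    have h' : enumCol vs (fun a => if a == v then c₀ v else c a) k = true := by
      cases hv : c₀ v
      · exact h.2
      · exact h.1
    obtain ⟨c', hk, hc'⟩ := enumCol_sound c₀ k vs _ h'
    refine ⟨c', hk, fun a ha => hc' a ?_⟩
    by_cases e : a = v
    · right; simp [e]
    · rcases ha with ha | ha
      · left; simpa [e] using ha
      · right; simp [e, ha]

def covered (g : Dem) (o : ℕ × List ℕ) : Bool :=
  g.opts.any fun o' => o'.1 == o.1 && o.2.all fun t => o'.2.contains t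

def check (vs : List ℕ) (ds : List Dem) (g : Dem) : Bool :=
  g.supp vs && ds.all (fun d => d.supp vs) &&
    enumCol vs (fun _ => false) fun c =>
      !g.active c ||
        !solve ((ds.filter fun d => d.active c).map fun d => d.opts.filter fun o => !covered g o) []

theorem active_congr (d : Dem) (vs : List ℕ) (c c' : ℕ → Bool) (hs : d.supp vs = true)
    (h : ∀ a ∈ vs, c' a = c a) : d.active c' = d.active c := by
  simp only [Dem.supp, List.all_eq_true, Bool.and_eq_true, List.contains_iff_mem] at hs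
  unfold Dem.active
  rw [Bool.eq_iff_iff, List.all_eq_true, List.all_eq_true]
  refine forall₂_congr fun t ht => ?_
  rw [h _ (hs t ht).1, h _ (hs t ht).2]

theorem check_sound (c : ℕ → Bool) (p : ℕ → ℕ) (vs : List ℕ) (ds : List Dem) (g : Dem)
    (h : check vs ds g = true) (hd : ∀ d ∈ ds, d.Holds c p) : g.Holds c p := by
  simp only [check, Bool.and_eq_true, List.all_eq_true] at h
  obtain ⟨⟨hg, hds⟩, he⟩ := h
  obtain ⟨c', hk, hc'⟩ := enumCol_sound c _ vs _ he
  have hc : ∀ a ∈ vs, c' a = c a := fun a ha => hc' a (Or.inl ha)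
  intro hact
  by_contra hno
  rw [active_congr g vs c c' hg hc, hact] at hk
  simp only [Bool.not_true, Bool.false_or, Bool.not_eq_true'] at hk
  rw [solve_sound p _ [] ?_ (by simp)] at hk
  · exact absurd hk (by simp)
  intro l hl
  obtain ⟨d, hd', rfl⟩ := List.mem_map.1 hl
  obtain ⟨hd1, hd2⟩ := List.mem_filter.1 hd'
  rw [active_congr d vs c c' (hds d hd1) hc] at hd2
  obtain ⟨o, ho, hp⟩ := hd d hd1 hd2
  refine ⟨o, List.mem_filter.2 ⟨ho, ?_⟩, hp⟩
  cases hcov : covered g o
  · rfl
  · exfalso
    simp only [covered, List.any_eq_true, Bool.and_eq_true, beq_iff_eq, List.all_eq_true,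
      List.contains_iff_mem] at hcov
    obtain ⟨o', ho', e, hsub⟩ := hcov
    exact hno ⟨o', ho', e ▸ hsub _ hp⟩

/-- twice the signed area of the triangle `a b c` -/
def orient (a b c : ℤ × ℤ) : ℤ := (b.1 - a.1) * (c.2 - a.2) - (b.2 - a.2) * (c.1 - a.1)

def pt (Q : List (ℤ × ℤ)) (v : ℕ) : ℤ × ℤ := Q.getD v (0, 0)

def drawCheck (n : ℕ) (E : List (ℕ × ℕ)) (Q : List (ℤ × ℤ)) : Bool :=
  ((List.range n).all fun u => (List.range n).all fun v => u == v || pt Q u != pt Q v) &&
  (E.all fun e => decide (e.1 < n) && decide (e.2 < n) && e.1 != e.2 &&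
    (List.range n).all fun w =>
      w == e.1 || w == e.2 || orient (pt Q e.1) (pt Q e.2) (pt Q w) != 0) &&
  (E.all fun e => E.all fun f =>
    e.1 == f.1 || e.1 == f.2 || e.2 == f.1 || e.2 == f.2 ||
    decide (0 < orient (pt Q e.1) (pt Q e.2) (pt Q f.1) * orient (pt Q e.1) (pt Q e.2) (pt Q f.2)) ||
    decide (0 < orient (pt Q f.1) (pt Q f.2) (pt Q e.1) * orient (pt Q f.1) (pt Q f.2) (pt Q e.2)))

end Pool.Agent.P.MP_7589f8_co
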