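import Pool.Agent.P.MP_7589f8_co.Checker

/-! The 58 vertex triangulation: edge list, integer coordinates, and the finite checks. -/

namespace Pool.Agent.P.MP_7589f8_co

def edgeList : List (ℕ × ℕ) :=
    [(0, 1), (0, 2), (0, 3), (0, 4), (0, 5), (0, 6), (0, 10), (0, 11), (0, 17), (0, 18), (0,
    41), (0, 43), (0, 51), (0, 52), (0, 53), (1, 2), (1, 3), (1, 5), (1, 7), (1, 15), (1, 16),
    (1, 17), (1, 22), (1, 23), (1, 24), (1, 28), (1, 29), (1, 35), (1, 36), (2, 3), (2, 23),
    (2, 25), (2, 33), (2, 34), (2, 35), (2, 40), (2, 41), (2, 42), (2, 46), (2, 47), (2, 53),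
    (2, 54), (3, 4), (3, 7), (3, 9), (3, 11), (3, 13), (3, 14), (3, 22), (3, 25), (3, 27), (3,
    29), (3, 31), (3, 32), (3, 40), (3, 43), (3, 45), (3, 47), (3, 49), (3, 50), (4, 6), (4,
    7), (4, 8), (4, 9), (4, 10), (5, 6), (5, 7), (5, 16), (5, 18), (5, 20), (5, 21), (6, 7),
    (8, 9), (8, 10), (8, 12), (8, 14), (9, 14), (10, 11), (10, 12), (11, 12), (11, 13), (12,
    13), (12, 14), (13, 14), (15, 16), (15, 17), (15, 19), (15, 21), (16, 21), (17, 18), (17,
    19), (18, 19), (18, 20), (19, 20), (19, 21), (20, 21), (22, 24), (22, 25), (22, 26), (22,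
    27), (22, 28), (23, 24), (23, 25), (23, 34), (23, 36), (23, 38), (23, 39), (24, 25), (26,
    27), (26, 28), (26, 30), (26, 32), (27, 32), (28, 29), (28, 30), (29, 30), (29, 31), (30,
    31), (30, 32), (31, 32), (33, 34), (33, 35), (33, 37), (33, 39), (34, 39), (35, 36), (35,
    37), (36, 37), (36, 38), (37, 38), (37, 39), (38, 39), (40, 42), (40, 43), (40, 44), (40,
    45), (40, 46), (41, 42), (41, 43), (41, 52), (41, 54), (41, 56), (41, 57), (42, 43), (44,
    45), (44, 46), (44, 48), (44, 50), (45, 50), (46, 47), (46, 48), (47, 48), (47, 49), (48,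
    49), (48, 50), (49, 50), (51, 52), (51, 53), (51, 55), (51, 57), (52, 57), (53, 54), (53,
    55), (54, 55), (54, 56), (55, 56), (55, 57), (56, 57)]

def coords : List (ℤ × ℤ) :=
    [(0, 0), (1000, 0), (0, 1000), (333, 334), (262, 158), (497, 34), (310, 78), (480, 121),
    (247, 197), (279, 232), (189, 148), (204, 185), (234, 202), (260, 240), (271, 241), (664,
    12), (684, 17), (522, 8), (412, 16), (536, 15), (506, 22), (577, 20), (579, 263), (470,
    496), (612, 310), (399, 480), (557, 247), (489, 279), (662, 189), (612, 203), (563, 234),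
    (499, 261), (488, 271), (324, 664), (299, 684), (469, 522), (571, 412), (448, 536), (473,
    505), (403, 578), (159, 579), (35, 469), (78, 612), (121, 399), (196, 556), (233, 489),
    (149, 662), (185, 612), (203, 564), (240, 499), (240, 489), (12, 323), (17, 299), (9, 469),
    (16, 572), (16, 448), (21, 473), (20, 403)]

def smallE00 : List (ℕ × ℕ) :=
    [(0, 3), (0, 4), (0, 10), (0, 11), (3, 4), (3, 9), (3, 11), (3, 13), (3, 14), (4, 8), (4,
    9), (4, 10), (8, 9), (8, 10), (8, 12), (8, 14), (9, 14), (10, 11), (10, 12), (11, 12), (11,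
    13), (12, 13), (12, 14), (13, 14)]

def smallD00 : Dem := gadDem 4 3 0 [8, 9, 10, 11, 12, 13, 14]

theorem small00 : check [4, 3, 0, 8, 9, 10, 11, 12, 13, 14] (smallE00.map edgeDem) smallD00 = true := by
  decide +kernel

theorem small00_sub : smallE00.all (fun e => edgeList.contains e) = true := by
  decide +kernel

def smallE01 : List (ℕ × ℕ) :=
    [(0, 1), (0, 5), (0, 17), (0, 18), (1, 5), (1, 15), (1, 16), (1, 17), (5, 16), (5, 18), (5,
    20), (5, 21), (15, 16), (15, 17), (15, 19), (15, 21), (16, 21), (17, 18), (17, 19), (18,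
    19), (18, 20), (19, 20), (19, 21), (20, 21)]

def smallD01 : Dem := gadDem 1 5 0 [15, 16, 17, 18, 19, 20, 21]

theorem small01 : check [1, 5, 0, 15, 16, 17, 18, 19, 20, 21] (smallE01.map edgeDem) smallD01 = true := by
  decide +kernel

theorem small01_sub : smallE01.all (fun e => edgeList.contains e) = true := by
  decide +kernel

def bigE0 : List (ℕ × ℕ) :=
    [(0, 1), (0, 3), (0, 4), (0, 5), (0, 6), (1, 3), (1, 5), (1, 7), (3, 4), (3, 7), (4, 6),
    (4, 7), (5, 6), (5, 7), (6, 7)]

theorem big0_sub : bigE0.all (fun e => edgeList.contains e) = true := by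
  decide +kernel

def bigD00 : Dem := gadDem 0 1 3
  [4, 5, 6, 7, 8, 9, 10, 11, 12, 13, 14, 15, 16, 17, 18, 19, 20, 21]

theorem big00 : check [0, 1, 3, 4, 5, 6, 7] (smallD00 :: smallD01 :: bigE0.map edgeDem) bigD00 = true := by
  decide +kernel

def bigD01 : Dem := gadDem 1 3 0
  [4, 5, 6, 7, 8, 9, 10, 11, 12, 13, 14, 15, 16, 17, 18, 19, 20, 21]

theorem big01 : check [0, 1, 3, 4, 5, 6, 7] (smallD00 :: smallD01 :: bigE0.map edgeDem) bigD01 = true := by
  decide +kernel

def bigD02 : Dem := gadDem 3 0 1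
  [4, 5, 6, 7, 8, 9, 10, 11, 12, 13, 14, 15, 16, 17, 18, 19, 20, 21]

theorem big02 : check [0, 1, 3, 4, 5, 6, 7] (smallD00 :: smallD01 :: bigE0.map edgeDem) bigD02 = true := by
  decide +kernel

def smallE10 : List (ℕ × ℕ) :=
    [(1, 3), (1, 22), (1, 28), (1, 29), (3, 22), (3, 27), (3, 29), (3, 31), (3, 32), (22, 26),
    (22, 27), (22, 28), (26, 27), (26, 28), (26, 30), (26, 32), (27, 32), (28, 29), (28, 30),
    (29, 30), (29, 31), (30, 31), (30, 32), (31, 32)]

def smallD10 : Dem := gadDem 22 3 1 [26, 27, 28, 29, 30, 31, 32]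

theorem small10 : check [22, 3, 1, 26, 27, 28, 29, 30, 31, 32] (smallE10.map edgeDem) smallD10 = true := by
  decide +kernel

theorem small10_sub : smallE10.all (fun e => edgeList.contains e) = true := by
  decide +kernel

def smallE11 : List (ℕ × ℕ) :=
    [(1, 2), (1, 23), (1, 35), (1, 36), (2, 23), (2, 33), (2, 34), (2, 35), (23, 34), (23, 36),
    (23, 38), (23, 39), (33, 34), (33, 35), (33, 37), (33, 39), (34, 39), (35, 36), (35, 37),
    (36, 37), (36, 38), (37, 38), (37, 39), (38, 39)]

def smallD11 : Dem := gadDem 2 23 1 [33, 34, 35, 36, 37, 38, 39]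

theorem small11 : check [2, 23, 1, 33, 34, 35, 36, 37, 38, 39] (smallE11.map edgeDem) smallD11 = true := by
  decide +kernel

theorem small11_sub : smallE11.all (fun e => edgeList.contains e) = true := by
  decide +kernel

def bigE1 : List (ℕ × ℕ) :=
    [(1, 2), (1, 3), (1, 22), (1, 23), (1, 24), (2, 3), (2, 23), (2, 25), (3, 22), (3, 25),
    (22, 24), (22, 25), (23, 24), (23, 25), (24, 25)]

theorem big1_sub : bigE1.all (fun e => edgeList.contains e) = true := by
  decide +kernel

def bigD10 : Dem := gadDem 1 2 3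
  [22, 23, 24, 25, 26, 27, 28, 29, 30, 31, 32, 33, 34, 35, 36, 37, 38, 39]

theorem big10 : check [1, 2, 3, 22, 23, 24, 25] (smallD10 :: smallD11 :: bigE1.map edgeDem) bigD10 = true := by
  decide +kernel

def bigD11 : Dem := gadDem 2 3 1
  [22, 23, 24, 25, 26, 27, 28, 29, 30, 31, 32, 33, 34, 35, 36, 37, 38, 39]

theorem big11 : check [1, 2, 3, 22, 23, 24, 25] (smallD10 :: smallD11 :: bigE1.map edgeDem) bigD11 = true := by
  decide +kernel

def bigD12 : Dem := gadDem 3 1 2
  [22, 23, 24, 25, 26, 27, 28, 29, 30, 31, 32, 33, 34, 35, 36, 37, 38, 39]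

theorem big12 : check [1, 2, 3, 22, 23, 24, 25] (smallD10 :: smallD11 :: bigE1.map edgeDem) bigD12 = true := by
  decide +kernel

def smallE20 : List (ℕ × ℕ) :=
    [(2, 3), (2, 40), (2, 46), (2, 47), (3, 40), (3, 45), (3, 47), (3, 49), (3, 50), (40, 44),
    (40, 45), (40, 46), (44, 45), (44, 46), (44, 48), (44, 50), (45, 50), (46, 47), (46, 48),
    (47, 48), (47, 49), (48, 49), (48, 50), (49, 50)]

def smallD20 : Dem := gadDem 40 3 2 [44, 45, 46, 47, 48, 49, 50]

theorem small20 : check [40, 3, 2, 44, 45, 46, 47, 48, 49, 50] (smallE20.map edgeDem) smallD20 = true := by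
  decide +kernel

theorem small20_sub : smallE20.all (fun e => edgeList.contains e) = true := by
  decide +kernel

def smallE21 : List (ℕ × ℕ) :=
    [(0, 2), (0, 41), (0, 51), (0, 52), (0, 53), (2, 41), (2, 53), (2, 54), (41, 52), (41, 54),
    (41, 56), (41, 57), (51, 52), (51, 53), (51, 55), (51, 57), (52, 57), (53, 54), (53, 55),
    (54, 55), (54, 56), (55, 56), (55, 57), (56, 57)]

def smallD21 : Dem := gadDem 0 41 2 [51, 52, 53, 54, 55, 56, 57]

theorem small21 : check [0, 41, 2, 51, 52, 53, 54, 55, 56, 57] (smallE21.map edgeDem) smallD21 = true := by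
  decide +kernel

theorem small21_sub : smallE21.all (fun e => edgeList.contains e) = true := by
  decide +kernel

def bigE2 : List (ℕ × ℕ) :=
    [(0, 2), (0, 3), (0, 41), (0, 43), (2, 3), (2, 40), (2, 41), (2, 42), (3, 40), (3, 43),
    (40, 42), (40, 43), (41, 42), (41, 43), (42, 43)]

theorem big2_sub : bigE2.all (fun e => edgeList.contains e) = true := by
  decide +kernel

def bigD20 : Dem := gadDem 2 0 3
  [40, 41, 42, 43, 44, 45, 46, 47, 48, 49, 50, 51, 52, 53, 54, 55, 56, 57]

theorem big20 : check [2, 0, 3, 40, 41, 42, 43] (smallD20 :: smallD21 :: bigE2.map edgeDem) bigD20 = true := by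
  decide +kernel

def bigD21 : Dem := gadDem 0 3 2
  [40, 41, 42, 43, 44, 45, 46, 47, 48, 49, 50, 51, 52, 53, 54, 55, 56, 57]

theorem big21 : check [2, 0, 3, 40, 41, 42, 43] (smallD20 :: smallD21 :: bigE2.map edgeDem) bigD21 = true := by
  decide +kernel

def bigD22 : Dem := gadDem 3 2 0
  [40, 41, 42, 43, 44, 45, 46, 47, 48, 49, 50, 51, 52, 53, 54, 55, 56, 57]

theorem big22 : check [2, 0, 3, 40, 41, 42, 43] (smallD20 :: smallD21 :: bigE2.map edgeDem) bigD22 = true := by
  decide +kernel

def topE : List (ℕ × ℕ) := [(0, 1), (0, 2), (0, 3), (1, 2), (1, 3), (2, 3)]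

theorem top_sub : topE.all (fun e => edgeList.contains e) = true := by
  decide +kernel

theorem top : check [0, 1, 2, 3] (bigD00 :: bigD01 :: bigD02 :: bigD10 :: bigD11 :: bigD12 :: bigD20 :: bigD21 :: bigD22 ::
    topE.map edgeDem) ⟨[], []⟩ = true := by
  decide +kernel

theorem draw_ok : drawCheck 58 edgeList coords = true := by
  decide +kernel

theorem no_pointers (c : ℕ → Bool) (p : ℕ → ℕ)
    (h : ∀ e ∈ edgeList, (edgeDem e).Holds c p) : False := by
  have sub : ∀ l : List (ℕ × ℕ), l.all (fun e => edgeList.contains e) = true →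
      ∀ d ∈ l.map edgeDem, d.Holds c p := by
    intro l hl d hd
    obtain ⟨e, he, rfl⟩ := List.mem_map.1 hd
    exact h e (by simpa using List.all_eq_true.1 hl e he)
  have s00 := check_sound c p _ _ _ small00 (sub _ small00_sub)
  have s01 := check_sound c p _ _ _ small01 (sub _ small01_sub)
  have b0 : ∀ d ∈ smallD00 :: smallD01 :: bigE0.map edgeDem, d.Holds c p :=
    List.forall_mem_cons.2 ⟨s00, List.forall_mem_cons.2 ⟨s01, sub _ big0_sub⟩⟩
  have b00 := check_sound c p _ _ _ big00 b0
  have b01 := check_sound c p _ _ _ big01 b0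
  have b02 := check_sound c p _ _ _ big02 b0
  have s10 := check_sound c p _ _ _ small10 (sub _ small10_sub)
  have s11 := check_sound c p _ _ _ small11 (sub _ small11_sub)
  have b1 : ∀ d ∈ smallD10 :: smallD11 :: bigE1.map edgeDem, d.Holds c p :=
    List.forall_mem_cons.2 ⟨s10, List.forall_mem_cons.2 ⟨s11, sub _ big1_sub⟩⟩
  have b10 := check_sound c p _ _ _ big10 b1
  have b11 := check_sound c p _ _ _ big11 b1
  have b12 := check_sound c p _ _ _ big12 b1
  have s20 := check_sound c p _ _ _ small20 (sub _ small20_sub)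
  have s21 := check_sound c p _ _ _ small21 (sub _ small21_sub)
  have b2 : ∀ d ∈ smallD20 :: smallD21 :: bigE2.map edgeDem, d.Holds c p :=
    List.forall_mem_cons.2 ⟨s20, List.forall_mem_cons.2 ⟨s21, sub _ big2_sub⟩⟩
  have b20 := check_sound c p _ _ _ big20 b2
  have b21 := check_sound c p _ _ _ big21 b2
  have b22 := check_sound c p _ _ _ big22 b2
  have t := check_sound c p _ _ _ top (by
    simp only [List.forall_mem_cons]
    exact ⟨b00, b01, b02, b10, b11, b12, b20, b21, b22, sub _ top_sub⟩)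
  obtain ⟨o, ho, -⟩ := t rfl
  simp at ho

end Pool.Agent.P.MP_7589f8_co
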